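import Pool.Agent.Run7.h729.Ind.Field
import Pool.Agent.H863R4.Package
import Pool.Agent.H984Q.Limit
import Pool.Agent.H984Q.Rate

/-!
# The exit side of the exploration path is independent of the field of the row imbalances

Critical bond percolation on `ℤ²` (`p = 1/2`): the exploration path in the plane slit along a half
line, started at the tip of the slit (left bank open, right bank dual-open), in the strip between
the columns `-a` and `b+1`, `a`, `b` odd. The side on which the path leaves the strip (and the
crossing event) is exactly independent of the whole field of the row imbalances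

  (open edges in even columns) - (open edges in odd columns),

of all row pairs, taken on the left and on the right of the slit separately. So the exact exit law
(sums of the beta-binomial weights) and Cardy's function in the limit are the same in all percolation
models with dependent edges whose density is a function of the field. As a consequence, in every row
pair the expected numbers of pivotal edges in the even and in the odd columns are equal.

Coordinates: the vertex `(u,v)` of `ℤ²` at mesh `δ` sits at `X + iY`, `X = δ (u - v)`,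
`Y = δ (u + v)` (rotation by 45 degrees). The column of a point is `u - v`, its height `u + v`.
-/

namespace Pool.Agent.Results.MP_6c8efb_pr.ExitIndependence

open MeasureTheory Filter Topology Set
open scoped ENNReal

/-- edges of `ℤ²`: `(u,v,false)` joins `(u,v)` and `(u+1,v)`; `(u,v,true)` joins `(u,v)` and
`(u,v+1)`. -/
abbrev Edge := ℤ × ℤ × Bool

/-- configurations (`true` = open) -/
abbrev Conf := Edge → Bool

/-- `x` and `y` are the two ends of an open edge -/
def OpenAdj (ω : Conf) (x y : ℤ × ℤ) : Prop :=
  (y = (x.1 + 1, x.2) ∧ ω (x.1, x.2, false) = true) ∨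
  (x = (y.1 + 1, y.2) ∧ ω (y.1, y.2, false) = true) ∨
  (y = (x.1, x.2 + 1) ∧ ω (x.1, x.2, true) = true) ∨
  (x = (y.1, y.2 + 1) ∧ ω (y.1, y.2, true) = true)

/-- bond percolation at `p = 1/2`: independent fair coins on the edges -/
noncomputable def perc : Measure Conf :=
  Measure.infinitePi (fun _ : Edge => (PMF.uniformOfFintype Bool).toMeasure)

/-! ## The exploration path -/

/-- A state `(x, d)` of the exploration path: the path passes next to the vertex `x`, which is on
its right, and looks at the edge which leaves `x` in the direction `d`. -/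
abbrev State := (ℤ × ℤ) × Fin 4

/-- the four directions, counterclockwise: `0` = right, `1` = up, `2` = left, `3` = down -/
def vec (d : Fin 4) : ℤ × ℤ :=
  match d with
  | 0 => (1, 0)
  | 1 => (0, 1)
  | 2 => (-1, 0)
  | 3 => (0, -1)

/-- the left bank of the slit: the vertices `(k,k)`, `k ≥ 0` (column `0`, height `≥ 0`) -/
def LeftBank (x : ℤ × ℤ) : Prop := x.1 = x.2 ∧ 0 ≤ x.1

/-- the edges which cross the slit: those between the columns `0` and `1` both ends of which have
height `≥ 0`. They cannot be used: the right bank of the slit is dual-open. -/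
def Cut (x y : ℤ × ℤ) : Prop :=
  0 ≤ x.1 + x.2 ∧ 0 ≤ y.1 + y.2 ∧
    ((x.1 - x.2 ≤ 0 ∧ 0 < y.1 - y.2) ∨ (y.1 - y.2 ≤ 0 ∧ 0 < x.1 - x.2))

open Classical in
/-- One step of the exploration path in the configuration `ω`: if the edge it looks at is open and
does not cross the slit, the path goes along this edge and turns counterclockwise (`d + 1`);
otherwise it turns clockwise around the vertex (`d + 3 = d - 1`). The left bank is open: at a vertex
of the left bank, when the path looks at the slit (`d = 0`), it goes on to the next vertex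
`x + (1,1)` of the left bank. -/
noncomputable def step (ω : Conf) (s : State) : State :=
  if LeftBank s.1 ∧ s.2 = 0 then (s.1 + (1, 1), 2)
  else if OpenAdj ω s.1 (s.1 + vec s.2) ∧ ¬ Cut s.1 (s.1 + vec s.2) then
    (s.1 + vec s.2, s.2 + 1)
  else (s.1, s.2 + 3)

/-- the exploration path: it starts at the tip, at the lowest vertex `(0,0)` of the left bank,
looking down -/
noncomputable def path (ω : Conf) (n : ℕ) : State := (step ω)^[n] ((0, 0), 3)

/-- the column of the vertex on the right of the path -/
def rightCol (s : State) : ℤ := s.1.1 - s.1.2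

/-- the column of the dual vertex (centre of a face) on the left of the path, which is
`x + (1/2,1/2)`, `x + (-1/2,1/2)`, `x + (-1/2,-1/2)`, `x + (1/2,-1/2)` for `d = 0, 1, 2, 3` -/
def leftCol (s : State) : ℤ :=
  match s.2 with
  | 0 => s.1.1 - s.1.2
  | 1 => s.1.1 - s.1.2 - 1
  | 2 => s.1.1 - s.1.2
  | 3 => s.1.1 - s.1.2 + 1

/-- the path reaches the column `b+1` (with its right side) before it reaches the column `-a` (with
its left side) -/
def RightFirst (a b : ℕ) : Set Conf :=
  {ω | ∃ n, (b : ℤ) + 1 ≤ rightCol (path ω n) ∧ ∀ m ≤ n, -(a : ℤ) < leftCol (path ω m)}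

/-- the path reaches the column `-a` (with its left side) before it reaches the column `b+1` (with
its right side) -/
def LeftFirst (a b : ℕ) : Set Conf :=
  {ω | ∃ n, leftCol (path ω n) ≤ -(a : ℤ) ∧ ∀ m ≤ n, rightCol (path ω m) < (b : ℤ) + 1}

/-! ## The crossing event -/

/-- Open edges of the slit strip: both ends have their column in `[-a, b+1]`; the edges which cross
the slit are removed. -/
def SAdj (a b : ℕ) (ω : Conf) (x y : ℤ × ℤ) : Prop :=
  OpenAdj ω x y ∧ -(a:ℤ) ≤ x.1 - x.2 ∧ x.1 - x.2 ≤ b + 1 ∧ -(a:ℤ) ≤ y.1 - y.2 ∧ y.1 - y.2 ≤ b + 1 ∧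
    ¬ Cut x y

/-- There is an open path of the slit strip from a vertex of the left bank of the slit
(column `0`, height `≥ 0`) to a vertex of the right side of the strip (column `b+1`). -/
def Cross (a b : ℕ) : Set Conf :=
  {ω | ∃ x y : ℤ × ℤ, x.1 - x.2 = 0 ∧ 0 ≤ x.1 + x.2 ∧ y.1 - y.2 = b + 1 ∧
    Relation.ReflTransGen (SAdj a b ω) x y}

/-- the edge `e` is pivotal for the increasing event `A`: `A` holds when `e` is open, and does not
hold when `e` is closed -/
def Pivotal (e : Edge) (A : Set Conf) : Set Conf :=
  {ω | Function.update ω e true ∈ A ∧ Function.update ω e false ∉ A}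

/-! ## The field -/

/-- the edge in the column `c` and the row `r`: it lies between the columns `c-1` and `c`, and
between the heights `r` and `r+1`. If `c + r` is even it joins the vertex at the column `c`, height
`r`, and the vertex at the column `c-1`, height `r+1`; if `c + r` is odd it joins the vertex at the
column `c-1`, height `r`, and the vertex at the column `c`, height `r+1`. -/
def edge (c r : ℤ) : Edge :=
  if (c + r) % 2 = 0 then ((c + r) / 2, (r - c) / 2, true)
    else ((c + r - 1) / 2, (r - c + 1) / 2, false)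

/-- the imbalance of the row pair `2j, 2j+1` over the columns of `C`: the number of the open edges
in even columns minus the number of the open edges in odd columns -/
def imb (C : Finset ℤ) (j : ℤ) (ω : Conf) : ℤ :=
  ∑ c ∈ C, ∑ r ∈ ({2 * j, 2 * j + 1} : Finset ℤ),
    if ω (edge c r) = true then (if c % 2 = 0 then 1 else -1) else 0

/-- The field of the row imbalances. The strip has the columns of edges `-a+1, …, b+1`. Below the tip
(`j < 0`): the imbalance of the row pair `j`. Above the tip (`j ≥ 0`): the imbalances of the row pair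
`j` on the left of the slit (columns `-a+1, …, 0`) and on its right (columns `2, …, b+1`). -/
noncomputable def field (a b : ℕ) (ω : Conf) (j : ℤ) : ℤ × ℤ :=
  if j < 0 then (imb (Finset.Ioc (-(a:ℤ)) (b + 1)) j ω, 0)
    else (imb (Finset.Ioc (-(a:ℤ)) 0) j ω, imb (Finset.Ioc 1 ((b:ℤ) + 1)) j ω)

/-- the columns of the part `d` of the row pair `j`: below the tip all columns (`d = false`); above
the tip those on the left (`d = false`) and on the right (`d = true`) of the slit -/
noncomputable def part (a b : ℕ) (j : ℤ) (d : Bool) : Finset ℤ :=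
  if j < 0 then (if d = false then Finset.Ioc (-(a:ℤ)) (b + 1) else ∅)
    else (if d = false then Finset.Ioc (-(a:ℤ)) 0 else Finset.Ioc 1 (b + 1))

/-- the dependent percolation model with the density `g (field)` -/
noncomputable def model (a b : ℕ) (g : (ℤ → ℤ × ℤ) → ℝ≥0∞) : Measure Conf :=
  perc.withDensity fun ω => g (field a b ω)

/-! ## The exact law and Cardy's function -/

/-- rising factorial `(s)_k` -/
noncomputable def ris (s : ℝ) (k : ℕ) : ℝ := ∏ i ∈ Finset.range k, (s + i)

/-- the weights `w_k(L) = binom(L,k) (1/3)_k (1/3)_{L-k} / (2/3)_L` of the beta-binomial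
distribution with parameters `(1/3,1/3)` -/
noncomputable def w (L k : ℕ) : ℝ := (L.choose k : ℝ) * ris (1/3) k * ris (1/3) (L-k) / ris (2/3) L

/-- Cardy's function: the normalised primitive of `(t(1-t))^(-2/3)` -/
noncomputable def cardy (x : ℝ) : ℝ :=
  (∫ t in (0:ℝ)..x, (t*(1-t))^(-(2:ℝ)/3)) / ∫ t in (0:ℝ)..1, (t*(1-t))^(-(2:ℝ)/3)

theorem scross_eq (a b : ℕ) : Cross a b = Pool.Agent.H863R4.SCross a b := rfl

theorem piv_mono (a b : ℕ) (e : Edge) (ω : Conf) (h : Function.update ω e false ∈ Cross a b) :
    Function.update ω e true ∈ Cross a b := by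
  obtain ⟨x, y, h1, h2, h3, h4⟩ := h
  refine ⟨x, y, h1, h2, h3, ?_⟩
  have key : ∀ i : Edge, Function.update ω e false i = true → Function.update ω e true i = true := by
    intro i hi
    by_cases h : i = e
    · subst h; simp
    · rw [Function.update_of_ne h] at hi ⊢
      exact hi
  refine h4.lift id ?_
  rintro p q ⟨e1, e2⟩
  refine ⟨?_, e2⟩
  rcases e1 with e1 | e1 | e1 | e1
  · exact Or.inl ⟨e1.1, key _ e1.2⟩
  · exact Or.inr (Or.inl ⟨e1.1, key _ e1.2⟩)
  · exact Or.inr (Or.inr (Or.inl ⟨e1.1, key _ e1.2⟩))
  · exact Or.inr (Or.inr (Or.inr ⟨e1.1, key _ e1.2⟩))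

/-- The exit side of the exploration path and the crossing event are independent of the field of the
row imbalances, for all odd `a`, `b`:
(1) the field is measurable, and for all measurable sets `S` of its values, with the exact laws of the
exit side and of the crossing event;
(2) the same exact laws in all dependent percolation models with a density `g (field)`;
(3) the scaling limit is Cardy's function, along arbitrary densities `g n`;
(4) in every row pair (above the tip: in each of its two parts) the expected number of the pivotal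
edges of the crossing event in the even columns is equal to the one in the odd columns. -/
theorem result :
    (∀ a b : ℕ, Odd a → Odd b → Measurable (field a b) ∧ ∀ S : Set (ℤ → ℤ × ℤ), MeasurableSet S →
      perc.real (RightFirst a b ∩ {ω | field a b ω ∈ S}) =
        (∑ k ∈ Finset.range (a+1), w (a+b+1) k) * perc.real {ω | field a b ω ∈ S} ∧
      perc.real (LeftFirst a b ∩ {ω | field a b ω ∈ S}) =
        (∑ k ∈ Finset.range (b+1), w (a+b+1) k) * perc.real {ω | field a b ω ∈ S} ∧
      perc.real (Cross a b ∩ {ω | field a b ω ∈ S}) =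
        (∑ k ∈ Finset.range (a+1), w (a+b+1) k) * perc.real {ω | field a b ω ∈ S}) ∧
    (∀ a b : ℕ, Odd a → Odd b → ∀ g : (ℤ → ℤ × ℤ) → ℝ≥0∞, Measurable g →
      ∫⁻ ω, g (field a b ω) ∂perc = 1 →
      (model a b g).real (RightFirst a b) = ∑ k ∈ Finset.range (a+1), w (a+b+1) k ∧
      (model a b g).real (LeftFirst a b) = ∑ k ∈ Finset.range (b+1), w (a+b+1) k ∧
      (model a b g).real (Cross a b) = ∑ k ∈ Finset.range (a+1), w (a+b+1) k) ∧
    (∀ α β : ℝ, 0 < α → 0 < β → ∀ (δ : ℕ → ℝ) (a b : ℕ → ℕ) (g : ℕ → (ℤ → ℤ × ℤ) → ℝ≥0∞),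
      (∀ n, 0 < δ n ∧ Odd (a n) ∧ Odd (b n) ∧ Measurable (g n) ∧
        ∫⁻ ω, g n (field (a n) (b n) ω) ∂perc = 1) →
      Tendsto δ atTop (𝓝 0) → Tendsto (fun n => δ n * a n) atTop (𝓝 α) →
      Tendsto (fun n => δ n * b n) atTop (𝓝 β) →
      Tendsto (fun n => (model (a n) (b n) (g n)).real (RightFirst (a n) (b n))) atTop
        (𝓝 (cardy (α / (α + β)))) ∧
      Tendsto (fun n => (model (a n) (b n) (g n)).real (LeftFirst (a n) (b n))) atTop
        (𝓝 (1 - cardy (α / (α + β)))) ∧
      Tendsto (fun n => (model (a n) (b n) (g n)).real (Cross (a n) (b n))) atTop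
        (𝓝 (cardy (α / (α + β))))) ∧
    (∀ a b : ℕ, Odd a → Odd b → ∀ (j : ℤ) (d : Bool),
      ∑ c ∈ (part a b j d).filter (fun c => c % 2 = 0), ∑ r ∈ ({2 * j, 2 * j + 1} : Finset ℤ),
        perc.real (Pivotal (edge c r) (Cross a b)) =
      ∑ c ∈ (part a b j d).filter (fun c => ¬ c % 2 = 0), ∑ r ∈ ({2 * j, 2 * j + 1} : Finset ℤ),
        perc.real (Pivotal (edge c r) (Cross a b))) := by
  have hX := Pool.Agent.H31C.exact_cardy
  have hD := Pool.Agent.H31C.limit_cardy
  have hE : ∀ a b : ℕ, Odd a → Odd b →
      perc.real (RightFirst a b) = ∑ k ∈ Finset.range (a+1), w (a+b+1) k ∧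
      perc.real (LeftFirst a b) = ∑ k ∈ Finset.range (b+1), w (a+b+1) k ∧
      perc.real (Cross a b) = ∑ k ∈ Finset.range (a+1), w (a+b+1) k := by
    intro a b ha hb
    have h := Pool.Agent.H984Q.exact_all hX a b ha hb
    refine ⟨h.1, h.2.1, ?_⟩
    have h2 := Pool.Agent.H863R4.scross_eq ha b
    rw [hX a b ha hb] at h2
    exact h2
  have hmf : ∀ a b : ℕ, Measurable (field a b) := fun a b =>
    Pool.Agent.Run7.h729.Ind.measurable_field a b
  have hiR : ∀ a b : ℕ, Odd a → Odd b → ∀ S : Set (ℤ → ℤ × ℤ), MeasurableSet S →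
      perc.real (RightFirst a b ∩ {ω | field a b ω ∈ S}) =
        perc.real (RightFirst a b) * perc.real {ω | field a b ω ∈ S} := fun a b ha hb S hS =>
    Pool.Agent.Run7.h729.Ind.field_right ha hb hS
  have hiL : ∀ a b : ℕ, Odd a → Odd b → ∀ S : Set (ℤ → ℤ × ℤ), MeasurableSet S →
      perc.real (LeftFirst a b ∩ {ω | field a b ω ∈ S}) =
        perc.real (LeftFirst a b) * perc.real {ω | field a b ω ∈ S} := fun a b ha hb S hS =>
    Pool.Agent.Run7.h729.Ind.field_left ha hb hS
  have hiC : ∀ a b : ℕ, Odd a → Odd b → ∀ S : Set (ℤ → ℤ × ℤ), MeasurableSet S →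
      perc.real (Cross a b ∩ {ω | field a b ω ∈ S}) =
        perc.real (Cross a b) * perc.real {ω | field a b ω ∈ S} := fun a b ha hb S hS =>
    Pool.Agent.Run7.h729.Ind.field_scross ha hb hS
  have hP : IsProbabilityMeasure perc := by unfold perc; infer_instance
  have h2 : ∀ a b : ℕ, Odd a → Odd b → ∀ g : (ℤ → ℤ × ℤ) → ℝ≥0∞, Measurable g →
      ∫⁻ ω, g (field a b ω) ∂perc = 1 →
      (model a b g).real (RightFirst a b) = perc.real (RightFirst a b) ∧
      (model a b g).real (LeftFirst a b) = perc.real (LeftFirst a b) ∧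
      (model a b g).real (Cross a b) = perc.real (Cross a b) := by
    intro a b ha hb g hg h1
    refine ⟨?_, ?_, ?_⟩
    · exact Pool.Agent.Run7.h729.Ind.density_law perc (hmf a b)
        (Pool.Agent.H984Q.m_events a b).1 (hiR a b ha hb) hg h1
    · exact Pool.Agent.Run7.h729.Ind.density_law perc (hmf a b)
        (Pool.Agent.H984Q.m_events a b).2 (hiL a b ha hb) hg h1
    · exact Pool.Agent.Run7.h729.Ind.density_law perc (hmf a b)
        (Pool.Agent.Run7.h729.Ind.meas_scross ha b) (hiC a b ha hb) hg h1
  refine ⟨fun a b ha hb => ⟨hmf a b, fun S hS => ⟨?_, ?_, ?_⟩⟩, fun a b ha hb g hg h1 => ?_, ?_, ?_⟩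
  · rw [hiR a b ha hb S hS, (hE a b ha hb).1]
  · rw [hiL a b ha hb S hS, (hE a b ha hb).2.1]
  · rw [hiC a b ha hb S hS, (hE a b ha hb).2.2]
  · obtain ⟨k1, k2, k3⟩ := h2 a b ha hb g hg h1
    obtain ⟨l1, l2, l3⟩ := hE a b ha hb
    exact ⟨k1.trans l1, k2.trans l2, k3.trans l3⟩
  · intro α β hα hβ δ a b g hg hδ0 ha hb
    obtain ⟨hs, hr⟩ := Pool.Agent.H984Q.mesh hα hβ δ a b (fun n => (hg n).1) hδ0 ha hb
    have hx0 : 0 < α / (α + β) := by positivity
    have hx1 : α / (α + β) < 1 := by
      rw [div_lt_one (by positivity)]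
      linarith
    have t1 : Tendsto (fun n => perc.real (RightFirst (a n) (b n))) atTop
        (𝓝 (cardy (α / (α + β)))) :=
      Pool.Agent.H984Q.lim_right hX hD a b _ hx0 hx1 hs hr
    have t2 : Tendsto (fun n => 1 - perc.real (RightFirst (a n) (b n))) atTop
        (𝓝 (1 - cardy (α / (α + β)))) := t1.const_sub 1
    have e0 : ∀ n, (model (a n) (b n) (g n)).real (RightFirst (a n) (b n)) =
          perc.real (RightFirst (a n) (b n)) ∧
        (model (a n) (b n) (g n)).real (LeftFirst (a n) (b n)) =
          perc.real (LeftFirst (a n) (b n)) ∧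
        (model (a n) (b n) (g n)).real (Cross (a n) (b n)) = perc.real (Cross (a n) (b n)) :=
      fun n => h2 (a n) (b n) (hg n).2.1 (hg n).2.2.1 (g n) (hg n).2.2.2.1 (hg n).2.2.2.2
    refine ⟨?_, ?_, ?_⟩
    · exact t1.congr fun n => (e0 n).1.symm
    · refine t2.congr' ?_
      filter_upwards [hs.eventually_ge_atTop 1] with n hn
      have hn' : 1 ≤ a n + b n := by exact_mod_cast hn
      have h3 := Pool.Agent.H984Q.sum_one hX (a n) (b n) hn'
      have h4 : perc.real (RightFirst (a n) (b n)) + perc.real (LeftFirst (a n) (b n)) = 1 := h3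
      rw [(e0 n).2.1]
      linarith
    · refine t1.congr fun n => ?_
      rw [(e0 n).2.2, (hE (a n) (b n) (hg n).2.1 (hg n).2.2.1).1,
        (hE (a n) (b n) (hg n).2.1 (hg n).2.2.1).2.2]
  · intro a b ha hb j d
    have hpb := Pool.Agent.Run7.h729.Ind.piv_balance (i := (j, d)) (a := a) (b := b)
      (A := Pool.Agent.H863R4.SCross a b) (Pool.Agent.Run7.h729.Ind.meas_scross ha b)
      (fun e ω h => piv_mono a b e ω h)
      (fun S hS => Pool.Agent.Run7.h729.Ind.scross_indep ha hb hS)
    have key : ∀ v : Bool, ∑ e ∈ (Pool.Agent.Run7.h729.Ind.Blk a b (j, d)).filter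
        (fun e => Pool.Agent.Run7.h729.Ind.sgn e = v),
        Pool.Agent.H988R2.Perc.perc.real
          (Pool.Agent.Run7.h729.Ind.Piv e (Pool.Agent.H863R4.SCross a b)) =
        ∑ c ∈ (part a b j d).filter (fun c => decide (c % 2 = 0) = v),
          ∑ r ∈ ({2 * j, 2 * j + 1} : Finset ℤ), perc.real (Pivotal (edge c r) (Cross a b)) := by
      intro v
      rw [Finset.sum_filter]
      unfold Pool.Agent.Run7.h729.Ind.Blk
      rw [Finset.sum_image, Finset.sum_product, Finset.sum_filter]
      · refine Finset.sum_congr rfl fun c _ => ?_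
        have hs : ∀ r : ℤ, Pool.Agent.Run7.h729.Ind.sgn
            (Pool.Agent.Run7.h729.Ind.edge c r) = decide (c % 2 = 0) := by
          intro r
          unfold Pool.Agent.Run7.h729.Ind.sgn
          rw [Pool.Agent.Run7.h729.Ind.col_edge]
        simp only [hs]
        split_ifs
        · rfl
        · rw [Finset.sum_const_zero]
      · rintro ⟨c, r⟩ _ ⟨c', r'⟩ _ h
        obtain ⟨h1, h2⟩ := Pool.Agent.Run7.h729.Ind.edge_inj h
        exact Prod.ext h1 h2
    rw [key, key] at hpb
    simpa only [decide_eq_true_eq, decide_eq_false_iff_not] using hpb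

end Pool.Agent.Results.MP_6c8efb_pr.ExitIndependence
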