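import Pool.Agent.Run7.h729.Iso.Uni
import Pool.Agent.Run7.h729.Iso.Fin

/-!
# Mean and variance of the winding of critical percolation crossings in isoradial cylinders

Bond percolation on the universal cover of a cylinder of odd circumference `N = 2n+1`, in rotated
coordinates: the corners `(x, y)` of the unit squares (tiles) with `x + y` even are the vertices of the
lattice, the corners with `x + y` odd those of the dual lattice (across a seam the two lattices are
exchanged), and in every tile exactly one diagonal is open.  All tiles are independent.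

Below the height `0` the cylinder is homogeneous (`p = 1/2`) and very long (`K` rows, all large `K`);
above there are `M` rows, and the tiles of the row `t` have the isoradial probability `isoP θ_t` of an
angle `θ_t`, where the angles are arbitrary elements of `[0, π]`.  In the isoradial embedding the row
`t` consists of rhombi of side length one with the angle `θ_t`: it has the height `sin θ_t` and the
horizontal shift `-cos θ_t`.  In units in which the circumference is `2π` the height of the `M` rows is
`T = 2π/N ∑ sin θ_t`, and the horizontal displacement of the crossings in these rows is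
`wnd = 2π/N (displacement - ∑ cos θ_t)`.

The theorem: uniformly in the circumference, in the number of rows and in the environment, the mean of
`wnd` is `O((1+T)/N²)` and its `L²` norm is `√(6T) + O(1)`, up to errors which are small for large `N`:
the diffusivity `κ = 6` predicted by conformal invariance, at the natural scale, where the height of
the cylinder is comparable with the circumference.
-/

set_option autoImplicit false

namespace Pool.Agent.Results.MP_b3e76a_pr.IsoradialVariance

open Filter Topology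

/-- configurations of `L` rows of the cylinder of circumference `2n+1`: the state of the tile `(j,t)`
(the unit square with lower left corner `(j,t)`) is `c t (j mod 2n+1)` -/
abbrev Conf (n L : ℕ) : Type := Fin L → Fin (2 * n + 1) → Bool

/-- adjacency of the corners in the strip of `L` rows of the universal cover: the open diagonal of the
tile `(j,t)` is `(j,t) - (j+1,t+1)` in the state `false` and `(j+1,t) - (j,t+1)` in the state
`true`; and at the bottom, in every period, the corners `2i` and `2i+2`, `i < n`, are joined -/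
def Adj (n L : ℕ) (c : Conf n L) (x y : ℤ × ℤ) : Prop :=
  (∃ (j : ℤ) (t : Fin L),
    (c t (H906K.jx (2 * n) j) = false ∧ x = (j, (t : ℤ)) ∧ y = (j + 1, (t : ℤ) + 1)) ∨
    (c t (H906K.jx (2 * n) j) = true ∧ x = (j + 1, (t : ℤ)) ∧ y = (j, (t : ℤ) + 1))) ∨
  ∃ (k : ℤ) (i : ℕ), i < n ∧ x = (k * (2 * n + 1) + 2 * i, 0) ∧
    y = (k * (2 * n + 1) + 2 * i + 2, 0)

/-- the corners `x`, `y` are joined by an open path -/
def Conn (n L : ℕ) (c : Conf n L) (x y : ℤ × ℤ) : Prop := Relation.EqvGen (Adj n L c) x y

/-- the leftmost corner at the top which is connected to the arc `[0, 2n]` of the bottom -/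
noncomputable def left (n L : ℕ) (c : Conf n L) : ℤ :=
  sInf {p : ℤ | Conn n L c (0, 0) (p, (L : ℤ))}

/-- the first `K` rows -/
def rows {n L : ℕ} (c : Conf n L) (K : ℕ) : Conf n K :=
  fun t j => if h : (t : ℕ) < L then c ⟨t, h⟩ j else false

/-- the isoradial probability of the state `true` for the angle `θ`; it is `1/2` for `θ = π/2` -/
noncomputable def isoP (θ : ℝ) : ℝ :=
  Real.sin (θ / 3) / (Real.sin (θ / 3) + Real.sin ((Real.pi - θ) / 3))

/-- the angles: `K` homogeneous rows, then the environment `θ` -/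
noncomputable def angle (K : ℕ) (θ : ℕ → ℝ) (t : ℕ) : ℝ :=
  if t < K then Real.pi / 2 else θ (t - K)

/-- the mean value over the independent tiles of `K + M` rows -/
noncomputable def mean {n : ℕ} (θ : ℕ → ℝ) (K M : ℕ) (F : Conf n (K + M) → ℝ) : ℝ :=
  ∑ c, (∏ t : Fin (K + M), ∏ j, if c t j = true then isoP (angle K θ t)
    else 1 - isoP (angle K θ t)) * F c

/-- the height of the `M` rows of the environment, in units in which the circumference is `2π` -/
noncomputable def height (n : ℕ) (θ : ℕ → ℝ) (M : ℕ) : ℝ :=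
  2 * Real.pi / (2 * n + 1) * ∑ t ∈ Finset.range M, Real.sin (θ t)

/-- the winding: the horizontal displacement, in the isoradial embedding, of the crossings in the last
`M` rows, in units in which the circumference is `2π` -/
noncomputable def wnd {n : ℕ} (θ : ℕ → ℝ) (K M : ℕ) (c : Conf n (K + M)) : ℝ :=
  2 * Real.pi / (2 * n + 1) * ((left n (K + M) c : ℝ) - left n K (rows c K)
    - ∑ t ∈ Finset.range M, Real.cos (θ t))

theorem mean_eq {n : ℕ} (θ : ℕ → ℝ) (K M : ℕ) (F : Conf n (K + M) → ℝ) :
    mean θ K M F = H729I.EE (H729I.det n (H729I.cat K θ)) (K + M) F := rfl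

theorem wnd_eq {n : ℕ} (hn : 1 ≤ n) (θ : ℕ → ℝ) (K M : ℕ) (c : Conf n (K + M)) :
    wnd θ K M c = 2 * Real.pi / (2 * n + 1) * H729I.Aa Real.cos θ K c := by
  have h1 := H729I.dis_left hn c
  have h2 := H729I.dis_left hn (H729I.rows c K)
  unfold H729I.Aa
  rw [h1, h2]
  rfl

theorem result :
    (∀ (n L : ℕ) (c : Conf n L), 1 ≤ n →
      Conn n L c (0, 0) (left n L c, L) ∧ Conn n L c (0, 0) (left n L c + 2 * n, L) ∧
      ∀ p : ℤ, Conn n L c (0, 0) (p, L) → left n L c ≤ p ∧ p ≤ left n L c + 2 * n) ∧
    ∃ C : ℝ, ∀ (n : ℕ), 1 ≤ n → ∀ θ : ℕ → ℝ, (∀ t, θ t ∈ Set.Icc 0 Real.pi) → ∀ M : ℕ,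
      ∃ K₀ : ℕ, ∀ K ≥ K₀,
        |mean θ K M (fun c : Conf n (K + M) => wnd θ K M c)|
          ≤ C * (1 + height n θ M) / (2 * n + 1) ^ 2 ∧
        |√(mean θ K M (fun c : Conf n (K + M) => wnd θ K M c ^ 2)) - √(6 * height n θ M)|
          ≤ C * (1 + √(height n θ M) / (2 * n + 1) + height n θ M / (2 * n + 1) ^ 2) := by
  refine ⟨?_, ?_⟩
  · intro n M c hn
    have hL : left n M c = Y994.KW.X n M c := Y994.KW.Lft_eq Y994.KW.All.CRS n M c hn
    obtain ⟨h1, h2, h3⟩ := Y994.KW.All.CRS n M c hn
    rw [hL]
    exact ⟨h1, h2, h3⟩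
  obtain ⟨K', hK', hall⟩ := H729I.main_asy
  obtain ⟨B, hB⟩ := H729I.momB_exists
  have hpi := Real.pi_pos
  have hB0 := hB.1
  refine ⟨2 * Real.pi * (2 * B + 2) + 2 * Real.pi * K' + K' + 2 * Real.pi, ?_⟩
  intro n hn θ hθ M
  obtain ⟨f, g, v, D, hc, -, -, hA⟩ := hall n hn
  obtain ⟨K0, hK0⟩ := H729I.winding hB hK'.le hn hc hA hθ M
  refine ⟨K0, fun K hK => ?_⟩
  obtain ⟨hm, hv⟩ := hK0 K hK
  have hN3 : (3 : ℝ) ≤ 2 * n + 1 := by
    have : (1 : ℝ) ≤ n := by exact_mod_cast hn
    linarith
  unfold height
  set N : ℝ := 2 * n + 1 with hN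
  have hN0 : 0 < N := by linarith
  set S : ℝ := ∑ t ∈ Finset.range M, Real.sin (θ t) with hS
  have hS0 : 0 ≤ S := Finset.sum_nonneg fun t _ =>
    Real.sin_nonneg_of_nonneg_of_le_pi (hθ t).1 (hθ t).2
  set T : ℝ := 2 * Real.pi / N * S with hT
  have hT0 : 0 ≤ T := by positivity
  have hST : S = T * N / (2 * Real.pi) := by rw [hT]; field_simp
  set C : ℝ := 2 * Real.pi * (2 * B + 2) + 2 * Real.pi * K' + K' + 2 * Real.pi with hC
  have hcoef : (0 : ℝ) < 2 * Real.pi / N := by positivity
  constructor
  · rw [mean_eq]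
    have e : (fun c : Conf n (K + M) => wnd θ K M c)
        = fun c => 2 * Real.pi / N * H729I.Aa Real.cos θ K c := by
      funext c; exact wnd_eq hn θ K M c
    rw [e, H729I.EE_mul, abs_mul, abs_of_pos hcoef]
    refine (mul_le_mul_of_nonneg_left hm hcoef.le).trans ?_
    have e1 : 2 * Real.pi / N * (1 / N ^ 2 + K' * S / N ^ 2)
        = (2 * Real.pi / N + K' * T) / N ^ 2 := by
      rw [hT]; field_simp
    rw [e1]
    apply div_le_div_of_nonneg_right _ (by positivity)
    have e2 : 2 * Real.pi / N ≤ 2 * Real.pi := by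
      apply div_le_self (by positivity); linarith
    have e3 : 0 ≤ 2 * Real.pi * (2 * B + 2) + 2 * Real.pi * K' := by positivity
    nlinarith
  · rw [mean_eq]
    have e : √(H729I.EE (H729I.det n (H729I.cat K θ)) (K + M)
        (fun c : Conf n (K + M) => wnd θ K M c ^ 2))
        = 2 * Real.pi / N * H729I.nr (H729I.det n (H729I.cat K θ))
          (fun c : Conf n (K + M) => H729I.Aa Real.cos θ K c) := by
      unfold H729I.nr
      have e0 : (fun c : Conf n (K + M) => wnd θ K M c ^ 2)
          = fun c => (2 * Real.pi / N) ^ 2 * H729I.Aa Real.cos θ K c ^ 2 := by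
        funext c; rw [wnd_eq hn θ K M c, mul_pow]
      rw [e0, H729I.EE_mul, Real.sqrt_mul (by positivity), Real.sqrt_sq hcoef.le]
    rw [e]
    have e1 : √(6 * T) = 2 * Real.pi / N * √(3 * N / Real.pi * S) := by
      have h1 : 2 * Real.pi / N = √((2 * Real.pi / N) ^ 2) := (Real.sqrt_sq hcoef.le).symm
      rw [h1, ← Real.sqrt_mul (by positivity)]
      congr 1
      rw [hT]
      field_simp
      ring
    rw [e1, ← mul_sub, abs_mul, abs_of_pos hcoef]
    refine (mul_le_mul_of_nonneg_left hv hcoef.le).trans ?_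
    have e2 : √(S / N) ≤ √T := by
      apply Real.sqrt_le_sqrt
      rw [hT, div_mul_eq_mul_div]
      apply div_le_div_of_nonneg_right _ hN0.le
      nlinarith [Real.pi_gt_three]
    have e3 : 2 * Real.pi / N * ((2 * B + 2) * N + K' * √(S / N) + K' * S / N ^ 2)
        = 2 * Real.pi * (2 * B + 2) + 2 * Real.pi * K' * (√(S / N) / N) + K' * (T / N ^ 2) := by
      rw [hT]; field_simp
    rw [e3]
    have e4 : √(S / N) / N ≤ √T / N := div_le_div_of_nonneg_right e2 hN0.le
    have e5 : 0 ≤ √T / N := by positivity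
    have e6 : 0 ≤ T / N ^ 2 := by positivity
    have e7 : 2 * Real.pi * K' * (√(S / N) / N) ≤ 2 * Real.pi * K' * (√T / N) :=
      mul_le_mul_of_nonneg_left e4 (by positivity)
    have e8 : 2 * Real.pi * (2 * B + 2) ≤ C := by
      rw [hC]; have : 0 ≤ 2 * Real.pi * K' + K' + 2 * Real.pi := by positivity
      linarith
    have e9 : 2 * Real.pi * K' ≤ C := by
      rw [hC]; have : 0 ≤ 2 * Real.pi * (2 * B + 2) + K' + 2 * Real.pi := by positivity
      linarith
    have e10 : K' ≤ C := by
      rw [hC]; have : 0 ≤ 2 * Real.pi * (2 * B + 2) + 2 * Real.pi * K' + 2 * Real.pi := by positivity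
      linarith
    have e11 := mul_le_mul_of_nonneg_right e9 e5
    have e12 := mul_le_mul_of_nonneg_right e10 e6
    linarith

end Pool.Agent.Results.MP_b3e76a_pr.IsoradialVariance
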