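import Pool.Agent.Run7.h729.Iso.Fin

/-!
# Winding of critical percolation crossings in adaptive isoradial environments

Bond percolation on the universal cover of a cylinder of odd circumference `N = 2n+1`, in rotated
coordinates: the corners `(x, y)` of the unit squares (tiles) with `x + y` even are the vertices of the
lattice, the corners with `x + y` odd those of the dual lattice (across a seam the two lattices are
exchanged), and in every tile exactly one diagonal is open.  The tiles of a row are independent, the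
state of a tile of the row `t` is `true` with the isoradial probability `isoP θ_t` of an angle
`θ_t` in `(0, π)`.  The angles are not fixed in advance: an adversary chooses `θ_t` as an arbitrary
function of all rows below the row `t`.

In the isoradial embedding the corner `(j, t)` is the point with the real part
`j - ∑_{s<t} cos θ_s` and the imaginary part `∑_{s<t} sin θ_s`: the row `t` consists of rhombi of side
length one and height `sin θ_t`.

The theorem: for every choice of the environments the winding of the crossings from the wired arc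
`[0, 2n]` of the bottom, as a function of the height in the isoradial embedding and after subtraction
of the sum of the drifts `v_n(θ_t) = cos θ_t + O(sin² θ_t / n²)`, converges in law, in the space of
continuous functions, to `√6` times Brownian motion, as soon as `n → ∞` and the height is larger than
a threshold which depends only on `n`; and the corresponding crossing probabilities converge to the
tails of the normal law of variance `6`.
-/

set_option autoImplicit false

namespace Pool.Agent.Results.MP_b3e76a_pr.IsoradialWinding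

open Filter Topology MeasureTheory ProbabilityTheory

/-- configurations of `M` rows of the cylinder of circumference `2n+1`: the state of the tile `(j,t)`
(the unit square with lower left corner `(j,t)`) is `c t (j mod 2n+1)` -/
abbrev Conf (n M : ℕ) : Type := Fin M → Fin (2 * n + 1) → Bool

/-- adjacency of the corners in the strip of `M` rows of the universal cover: the open diagonal of the
tile `(j,t)` is `(j,t) - (j+1,t+1)` in the state `false` and `(j+1,t) - (j,t+1)` in the state
`true`; and at the bottom, in every period, the corners `2i` and `2i+2`, `i < n`, are joined -/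
def Adj (n M : ℕ) (c : Conf n M) (x y : ℤ × ℤ) : Prop :=
  (∃ (j : ℤ) (t : Fin M),
    (c t (H906K.jx (2 * n) j) = false ∧ x = (j, (t : ℤ)) ∧ y = (j + 1, (t : ℤ) + 1)) ∨
    (c t (H906K.jx (2 * n) j) = true ∧ x = (j + 1, (t : ℤ)) ∧ y = (j, (t : ℤ) + 1))) ∨
  ∃ (k : ℤ) (i : ℕ), i < n ∧ x = (k * (2 * n + 1) + 2 * i, 0) ∧
    y = (k * (2 * n + 1) + 2 * i + 2, 0)

/-- the corners `x`, `y` are joined by an open path -/
def Conn (n M : ℕ) (c : Conf n M) (x y : ℤ × ℤ) : Prop := Relation.EqvGen (Adj n M c) x y

/-- the leftmost corner at the top which is connected to the arc `[0, 2n]` of the bottom -/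
noncomputable def left (n M : ℕ) (c : Conf n M) : ℤ :=
  sInf {p : ℤ | Conn n M c (0, 0) (p, (M : ℤ))}

/-- the first `m` rows -/
def rows {n M : ℕ} (c : Conf n M) (m : ℕ) : Conf n m :=
  fun t j => if h : (t : ℕ) < M then c ⟨t, h⟩ j else false

/-- an adaptive environment: the angle of the row `t` is a function of the rows below it -/
abbrev Env (n : ℕ) : Type := (t : ℕ) → Conf n t → ℝ

/-- the isoradial probability of the state `true` for the angle `θ` -/
noncomputable def isoP (θ : ℝ) : ℝ :=
  Real.sin (θ / 3) / (Real.sin (θ / 3) + Real.sin ((Real.pi - θ) / 3))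

/-- the probability of the configuration `c` in the environment `θ` -/
noncomputable def weight {n : ℕ} (θ : Env n) (M : ℕ) (c : Conf n M) : ℝ :=
  ∏ t : Fin M, ∏ j, if c t j = true then isoP (θ t (rows c t)) else 1 - isoP (θ t (rows c t))

/-- the mean value in the environment `θ` -/
noncomputable def mean {n : ℕ} (θ : Env n) (M : ℕ) (F : Conf n M → ℝ) : ℝ :=
  ∑ c, weight θ M c * F c

/-- the sum of `φ` over the angles of the first `m` rows -/
noncomputable def total {n : ℕ} (φ : ℝ → ℝ) (θ : Env n) {M : ℕ} (c : Conf n M) (m : ℕ) : ℝ :=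
  ∑ t ∈ Finset.range m, φ (θ t (rows c t))

/-- the winding of the crossings as a function of the height in the isoradial embedding: the sum over
the rows `t` of the displacement of the leftmost top corner minus the drift `v (θ_t)`, where only the
part of the row below the height `s H` is counted, in units in which the circumference is `2π`,
divided by the square root of the height `2π H / (2n+1)` -/
noncomputable def wind {n : ℕ} (v : ℝ → ℝ) (θ : Env n) (H : ℝ) (M : ℕ) (c : Conf n M) :
    C(unitInterval, ℝ) :=
  ⟨fun s => 2 * Real.pi / (2 * n + 1) / √(2 * Real.pi * H / (2 * n + 1)) *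
    ∑ t ∈ Finset.range M, ((left n (t + 1) (rows c (t + 1)) : ℝ) - left n t (rows c t)
      - v (θ t (rows c t))) *
        max 0 (min 1 (((s : ℝ) * H - total Real.sin θ c t) / Real.sin (θ t (rows c t)))),
    by fun_prop⟩

/-- `W` is the law of Brownian motion on `[0,1]` with variance `v` per unit of time: it starts at `0`,
and its increments over consecutive intervals are independent centred normal variables with
variances `v` times the lengths -/
def IsBM (v : NNReal) (W : Measure C(unitInterval, ℝ)) : Prop :=
  IsProbabilityMeasure W ∧ (∀ᵐ w ∂W, w 0 = 0) ∧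
  ∀ (k : ℕ) (t : Fin (k + 1) → unitInterval), Monotone t →
    W.map (fun w (j : Fin k) => w (t j.succ) - w (t j.castSucc)) =
      Measure.pi (fun j : Fin k =>
        gaussianReal 0 (v * Real.toNNReal ((t j.succ : ℝ) - t j.castSucc)))

theorem mean_eq {n : ℕ} (θ : Env n) (M : ℕ) (F : Conf n M → ℝ) :
    mean θ M F = H729I.EE θ M F := rfl

theorem wind_eq {n : ℕ} (hn : 1 ≤ n) (v : ℝ → ℝ) (θ : Env n) {H : ℝ} (hH : 0 < H) (M : ℕ)
    (c : Conf n M) : wind v θ H M c = √6 • H729I.wp v θ H (H729I.scA n H) c := by
  ext s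
  have e1 : 2 * Real.pi / (2 * (n : ℝ) + 1) / √(2 * Real.pi * H / (2 * n + 1))
      = √6 * H729I.scA n H := by
    unfold H729I.scA
    have hpi := Real.pi_pos
    rw [← Real.sqrt_mul (by norm_num)]
    have h1 : 2 * Real.pi / (2 * (n : ℝ) + 1) = √((2 * Real.pi / (2 * n + 1)) ^ 2) :=
      (Real.sqrt_sq (by positivity)).symm
    rw [h1, ← Real.sqrt_div (by positivity)]
    congr 1
    field_simp
    ring
  show 2 * Real.pi / (2 * (n : ℝ) + 1) / √(2 * Real.pi * H / (2 * n + 1)) *
    ∑ t ∈ Finset.range M, ((left n (t + 1) (rows c (t + 1)) : ℝ) - left n t (rows c t)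
      - v (θ t (rows c t))) *
        max 0 (min 1 (((s : ℝ) * H - total Real.sin θ c t) / Real.sin (θ t (rows c t))))
    = √6 * (H729I.scA n H * ∑ t ∈ Finset.range M,
      (H729I.Yd v θ (t + 1) (H729I.rows c (t + 1)) - H729I.Yd v θ t (H729I.rows c t)) *
      H729I.cx (H729I.Sq θ c) (H729I.sn θ c) (s * H) t)
  rw [e1, ← mul_assoc]
  congr 1
  refine Finset.sum_congr rfl fun t _ => ?_
  have h1 := H729I.dis_left hn (H729I.rows c (t + 1))
  have h2 := H729I.dis_left hn (H729I.rows c t)
  have e2 : H729I.Yd v θ (t + 1) (H729I.rows c (t + 1)) - H729I.Yd v θ t (H729I.rows c t)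
      = (left n (t + 1) (rows c (t + 1)) : ℝ) - left n t (rows c t) - v (θ t (rows c t)) := by
    unfold H729I.Yd
    rw [h1, h2, H729I.Sm_rows]
    show (left n (t + 1) (rows c (t + 1)) : ℝ) - _ - ((left n t (rows c t) : ℝ) - _) = _
    show _ = (left n (t + 1) (rows c (t + 1)) : ℝ) - left n t (rows c t)
      - v (θ t (H729I.rows c t))
    ring
  rw [e2]
  congr 1
  have e3 : H729I.Sq θ c t = total Real.sin θ c t := by
    unfold H729I.Sq H729I.Sm total
    refine Finset.sum_congr rfl fun r hr => ?_
    have hr' := Finset.mem_range.1 hr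
    rw [H729I.rows_rows c hr'.le]
    rfl
  unfold H729I.cx
  rw [e3]
  rfl

open Classical in
theorem result :
    (∀ (n M : ℕ) (c : Conf n M), 1 ≤ n →
      Conn n M c (0, 0) (left n M c, M) ∧ Conn n M c (0, 0) (left n M c + 2 * n, M) ∧
      ∀ p : ℤ, Conn n M c (0, 0) (p, M) → left n M c ≤ p ∧ p ≤ left n M c + 2 * n) ∧
    ∃ (K : ℝ) (v : ℕ → ℝ → ℝ) (C : ℕ → ℝ) (W : Measure C(unitInterval, ℝ)), IsBM 1 W ∧
      (∀ n, 1 ≤ n → ContinuousOn (v n) (Set.Icc 0 Real.pi) ∧ ∀ θ ∈ Set.Icc 0 Real.pi,
        |v n θ - Real.cos θ| ≤ K * Real.sin θ ^ 2 / (2 * n + 1) ^ 2) ∧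
      ∀ (n : ℕ → ℕ) (θ : ∀ i, Env (n i)) (H : ℕ → ℝ) (M : ℕ → ℕ), Tendsto n atTop atTop →
        (∀ i, C (n i) ≤ H i) → (∀ i t c, θ i t c ∈ Set.Ioo 0 Real.pi) →
        (∀ i, ∀ c : Conf (n i) (M i), H i ≤ total Real.sin (θ i) c (M i)) →
        (∀ F : BoundedContinuousFunction C(unitInterval, ℝ) ℝ,
          Tendsto (fun i => mean (θ i) (M i) (fun c => F (wind (v (n i)) (θ i) (H i) (M i) c)))
            atTop (𝓝 (∫ w, F (√6 • w) ∂W))) ∧
        ((∀ i, ∀ c : Conf (n i) (M i), total Real.sin (θ i) c (M i) = H i) →
          ∀ x : ℝ, Tendsto (fun i => mean (θ i) (M i) (fun c =>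
            if ∃ p : ℤ, total (v (n i)) (θ i) c (M i)
                + x * √((2 * n i + 1) * H i / (2 * Real.pi)) ≤ p ∧
              Conn (n i) (M i) c (0, 0) (p, (M i : ℤ)) then (1 : ℝ) else 0)) atTop
            (𝓝 ((gaussianReal 0 6).real (Set.Ici x)))) := by
  have hcr : ∀ (n M : ℕ) (c : Conf n M), 1 ≤ n →
      Conn n M c (0, 0) (left n M c, M) ∧ Conn n M c (0, 0) (left n M c + 2 * n, M) ∧
      ∀ p : ℤ, Conn n M c (0, 0) (p, M) → left n M c ≤ p ∧ p ≤ left n M c + 2 * n := by
    intro n M c hn
    have hL : left n M c = Y994.KW.X n M c := Y994.KW.Lft_eq Y994.KW.All.CRS n M c hn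
    obtain ⟨h1, h2, h3⟩ := Y994.KW.All.CRS n M c hn
    rw [hL]
    exact ⟨h1, h2, h3⟩
  obtain ⟨K, v, C, W, hW, hv, hmain⟩ := H729I.final
  have hpi := Real.pi_pos
  refine ⟨hcr, K, v, fun n => max 1 (C n), W, hW, hv, ?_⟩
  intro n θ H M htop hH hθ hM
  have hH0 : ∀ i, 0 < H i := fun i => lt_of_lt_of_le one_pos ((le_max_left _ _).trans (hH i))
  have htot : ∀ i, ∀ c : Conf (n i) (M i), total Real.sin (θ i) c (M i)
      = H729I.Sm (fun t c => Real.sin (θ i t c)) (M i) c := fun i c => rfl
  obtain ⟨h1, h2⟩ := hmain n θ H M htop (fun i => (le_max_right _ _).trans (hH i)) hθ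
    (fun i c => hM i c)
  obtain ⟨i0, hi0⟩ := eventually_atTop.1 (htop.eventually_ge_atTop 1)
  refine ⟨fun F => ?_, fun hM' x => ?_⟩
  · refine (h1 F).congr' ?_
    filter_upwards [eventually_ge_atTop i0] with i hi
    rw [mean_eq]
    congr 1
    funext c
    rw [wind_eq (hi0 i hi) _ _ (hH0 i)]
  · refine (h2 hM' x).congr' ?_
    filter_upwards [eventually_ge_atTop i0] with i hi
    have hn := hi0 i hi
    rw [mean_eq]
    congr 1
    funext c
    have hsq : 0 < √((2 * (n i : ℝ) + 1) * H i / (2 * Real.pi)) := by
      have := hH0 i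
      positivity
    obtain ⟨-, hc2, hc3⟩ := hcr (n i) (M i) c hn
    have hd := H729I.dis_left hn c
    have hiff : x ≤ (H729I.dis c + 2 * n i - H729I.Sm (fun t c => v (n i) (θ i t c)) (M i) c) /
            √((2 * n i + 1) * H i / (2 * Real.pi)) ↔
        ∃ p : ℤ, total (v (n i)) (θ i) c (M i)
                + x * √((2 * n i + 1) * H i / (2 * Real.pi)) ≤ p ∧
              Conn (n i) (M i) c (0, 0) (p, (M i : ℤ)) := by
      rw [le_div_iff₀ hsq, hd]
      constructor
      · intro h
        refine ⟨left (n i) (M i) c + 2 * n i, ?_, hc2⟩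
        push_cast
        have h' : x * √((2 * n i + 1) * H i / (2 * Real.pi))
            ≤ (left (n i) (M i) c : ℝ) + 2 * n i - total (v (n i)) (θ i) c (M i) := h
        linarith
      · rintro ⟨p, hp1, hp2⟩
        have h3 : (p : ℝ) ≤ left (n i) (M i) c + 2 * n i := by exact_mod_cast (hc3 p hp2).2
        show x * √((2 * n i + 1) * H i / (2 * Real.pi))
            ≤ (left (n i) (M i) c : ℝ) + 2 * n i - total (v (n i)) (θ i) c (M i)
        linarith
    by_cases hx : x ≤ (H729I.dis c + 2 * n i
        - H729I.Sm (fun t c => v (n i) (θ i t c)) (M i) c) /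
            √((2 * n i + 1) * H i / (2 * Real.pi))
    · rw [if_pos hx, if_pos (hiff.1 hx)]
    · rw [if_neg hx, if_neg (fun h => hx (hiff.2 h))]

end Pool.Agent.Results.MP_b3e76a_pr.IsoradialWinding
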