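import Pool.Agent.Run7.h729.Lay.Cen
import Pool.Agent.H863R4.Package

/-!
# Cardy's formula for layered inhomogeneous bond percolation on the square lattice

Independent edges; the edges between the heights `r` and `r+1` (height `= u + v`) are open with
probability `p` or `1 - p` according to their direction, where `p = P j` is the same for the two
layers `r = 2j, 2j+1`, and the roles of the two directions are exchanged between these two layers.
The sequence `P` is arbitrary (`P = 1/2` is critical bond percolation on `ℤ²`), and infinitely many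
layers have to be elliptic. The probability that the left bank of the slit is joined to the right
side of the slit strip does not depend on `P` (for odd distances), and Cardy's formula holds, with a
rate which is uniform in `P`.
-/

namespace Pool.Agent.Results.MP_35f495_pr.LayeredCardy

open MeasureTheory ProbabilityTheory Filter Topology Set

/-- edges of `ℤ²`: `(u,v,false)` joins `(u,v)` and `(u+1,v)`; `(u,v,true)` joins `(u,v)` and
`(u,v+1)`. -/
abbrev Edge := ℤ × ℤ × Bool

/-- configurations (`true` = open) -/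
abbrev Conf := Edge → Bool

/-- `x` and `y` are the two ends of an open edge -/
def OpenAdj (ω : Conf) (x y : ℤ × ℤ) : Prop :=
  (y = (x.1 + 1, x.2) ∧ ω (x.1, x.2, false) = true) ∨
  (x = (y.1 + 1, y.2) ∧ ω (y.1, y.2, false) = true) ∨
  (y = (x.1, x.2 + 1) ∧ ω (x.1, x.2, true) = true) ∨
  (x = (y.1, y.2 + 1) ∧ ω (y.1, y.2, true) = true)

/-- The probability that an edge is open. `r = u + v` is the layer of an edge with the lower left
end `(u,v)`. The layers `2j` and `2j+1` have the parameter `P j`: in the layer `2j` vertical edges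
have probability `P j` and horizontal edges `1 - P j`; in the layer `2j+1` horizontal edges have
probability `P j` and vertical edges `1 - P j`. -/
noncomputable def openProb (P : ℤ → unitInterval) (e : Edge) : unitInterval :=
  if ((e.1 + e.2.1) % 2 = 0 ↔ e.2.2 = true) then P ((e.1 + e.2.1) / 2)
    else unitInterval.symm (P ((e.1 + e.2.1) / 2))

/-- layered inhomogeneous bond percolation: independent edges, the edge `e` is open with
probability `openProb P e` -/
noncomputable def layered (P : ℤ → unitInterval) : Measure Conf :=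
  Measure.infinitePi (fun e : Edge => bernoulliMeasure true false (openProb P e))

/-- the parameters of infinitely many layers, upwards and downwards, are in `[ε, 1-ε]` -/
def Elliptic (P : ℤ → unitInterval) : Prop :=
  ∃ ε : ℝ, 0 < ε ∧ (∀ N : ℤ, ∃ j, N ≤ j ∧ ε ≤ P j ∧ (P j : ℝ) ≤ 1 - ε) ∧
    (∀ N : ℤ, ∃ j, j ≤ N ∧ ε ≤ P j ∧ (P j : ℝ) ≤ 1 - ε)

/-- The column of the vertex `(u,v)` is `u - v`, its height is `u + v`. Open edges of the slit
strip: both ends have their column in `[-a, b+1]`; the edges between the columns `0` and `1` with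
both ends at height `≥ 0` (those which cross the slit) are removed. -/
def SAdj (a b : ℕ) (ω : Conf) (x y : ℤ × ℤ) : Prop :=
  OpenAdj ω x y ∧ -(a:ℤ) ≤ x.1 - x.2 ∧ x.1 - x.2 ≤ b + 1 ∧ -(a:ℤ) ≤ y.1 - y.2 ∧ y.1 - y.2 ≤ b + 1 ∧
    ¬ (0 ≤ x.1 + x.2 ∧ 0 ≤ y.1 + y.2 ∧
      ((x.1 - x.2 ≤ 0 ∧ 0 < y.1 - y.2) ∨ (y.1 - y.2 ≤ 0 ∧ 0 < x.1 - x.2)))

/-- There is an open path of the slit strip from a vertex of the left bank of the slit
(column `0`, height `≥ 0`) to a vertex of the right side of the strip (column `b+1`). -/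
def Cross (a b : ℕ) : Set Conf :=
  {ω | ∃ x y : ℤ × ℤ, x.1 - x.2 = 0 ∧ 0 ≤ x.1 + x.2 ∧ y.1 - y.2 = b + 1 ∧
    Relation.ReflTransGen (SAdj a b ω) x y}

/-- Cardy's function: the normalised primitive of `(t(1-t))^(-2/3)` -/
noncomputable def cardy (x : ℝ) : ℝ :=
  (∫ t in (0:ℝ)..x, (t*(1-t))^(-(2:ℝ)/3)) / ∫ t in (0:ℝ)..1, (t*(1-t))^(-(2:ℝ)/3)

/-- rising factorial -/
noncomputable def rising (s : ℝ) (k : ℕ) : ℝ := ∏ i ∈ Finset.range k, (s + i)

/-- the beta-binomial(1/3,1/3) weights `binom(L,k) (1/3)_k (1/3)_(L-k) / (2/3)_L` -/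
noncomputable def weight (L k : ℕ) : ℝ :=
  (L.choose k : ℝ) * rising (1/3) k * rising (1/3) (L-k) / rising (2/3) L

/-- Layered inhomogeneous percolation in the slit strips: (1) the exact law, the same for all
environments `P`; (2) Cardy's formula with a rate which is uniform in `P`, for all widths; (3) the
scaling limit, along arbitrary sequences of environments. -/
theorem result :
    (∀ P : ℤ → unitInterval, Elliptic P → ∀ a b : ℕ, Odd a → Odd b →
      (layered P).real (Cross a b) = ∑ k ∈ Finset.range (a + 1), weight (a + b + 1) k) ∧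
    (∀ P : ℤ → unitInterval, Elliptic P → ∀ a b : ℕ, 1 ≤ a → 1 ≤ b →
      |(layered P).real (Cross a b) - cardy ((a:ℝ) / (a + b))| ≤
        60 * ((min a b : ℕ) : ℝ) ^ (-(2/3) : ℝ) * ((a:ℝ) + b) ^ (-(1/3) : ℝ)) ∧
    (∀ α β : ℝ, 0 < α → 0 < β → ∀ (P : ℕ → ℤ → unitInterval) (δ : ℕ → ℝ) (a b : ℕ → ℕ),
      (∀ n, Elliptic (P n)) → (∀ n, 0 < δ n) → Tendsto δ atTop (𝓝 0) →
      Tendsto (fun n => δ n * a n) atTop (𝓝 α) → Tendsto (fun n => δ n * b n) atTop (𝓝 β) →
      Tendsto (fun n => (layered (P n)).real (Cross (a n) (b n))) atTop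
        (𝓝 (cardy (α / (α + β))))) := by
  have hE : ∀ P : ℤ → unitInterval, Elliptic P → ∀ a b : ℕ, Odd a → Odd b →
      (layered P).real (Cross a b) =
        Pool.Agent.H988R2.Perc.perc.real (Pool.Agent.H863R4.SCross a b) := by
    rintro P ⟨ε, h0, h1, h2⟩ a b ha hb
    exact Pool.Agent.Run7.h729.Lay.cen_univ h0 ⟨h1, h2⟩ ha hb
  have hR : ∀ P : ℤ → unitInterval, Elliptic P → ∀ a b : ℕ, 1 ≤ a → 1 ≤ b →
      |(layered P).real (Cross a b) - cardy ((a:ℝ) / (a + b))| ≤
        60 * ((min a b : ℕ) : ℝ) ^ (-(2/3) : ℝ) * ((a:ℝ) + b) ^ (-(1/3) : ℝ) := by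
    intro P hP a b ha hb
    have : IsProbabilityMeasure (layered P) := by unfold layered; infer_instance
    exact Pool.Agent.Run7.h729.Lay.rate_of (layered P) (fun a b ha hb => hE P hP a b ha hb) ha hb
  refine ⟨fun P hP a b ha hb => ?_, hR, ?_⟩
  · rw [hE P hP a b ha hb, Pool.Agent.H863R4.scross_eq ha,
      Pool.Agent.H31C.exact_cardy a b ha hb]
    rfl
  · intro α β hα hβ P δ a b hP hδ hδ0 ha hb
    have hlim := (Pool.Agent.H863R4.cardy_slit Pool.Agent.H31C.exact_cardy
      Pool.Agent.H31C.limit_cardy hα hβ).2 δ a b hδ hδ0 ha hb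
    have ha' : Tendsto (fun n => (a n : ℝ)) atTop atTop := by
      have hinv : Tendsto (fun n => (δ n)⁻¹) atTop atTop :=
        (tendsto_nhdsWithin_iff.mpr ⟨hδ0, Eventually.of_forall hδ⟩).inv_tendsto_nhdsGT_zero
      refine (hinv.atTop_mul_pos hα ha).congr fun n => ?_
      rw [← mul_assoc, inv_mul_cancel₀ (hδ n).ne', one_mul]
    have hb' : Tendsto (fun n => (b n : ℝ)) atTop atTop := by
      have hinv : Tendsto (fun n => (δ n)⁻¹) atTop atTop :=
        (tendsto_nhdsWithin_iff.mpr ⟨hδ0, Eventually.of_forall hδ⟩).inv_tendsto_nhdsGT_zero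
      refine (hinv.atTop_mul_pos hβ hb).congr fun n => ?_
      rw [← mul_assoc, inv_mul_cancel₀ (hδ n).ne', one_mul]
    have hmin : Tendsto (fun n => ((min (a n) (b n) : ℕ) : ℝ)) atTop atTop := by
      rw [tendsto_atTop]
      intro c
      filter_upwards [(tendsto_atTop.mp ha') c, (tendsto_atTop.mp hb') c] with n h1 h2
      rw [Nat.cast_min]
      exact le_min h1 h2
    have hr : Tendsto (fun n => 60 * ((min (a n) (b n) : ℕ) : ℝ) ^ (-(2/3) : ℝ) *
        ((a n:ℝ) + b n) ^ (-(1/3) : ℝ)) atTop (𝓝 0) := by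
      have t1 := (tendsto_rpow_neg_atTop (show (0:ℝ) < 2/3 by norm_num)).comp hmin
      have t2 := (tendsto_rpow_neg_atTop (show (0:ℝ) < 1/3 by norm_num)).comp
        (ha'.atTop_add_atTop hb')
      have := (t1.const_mul 60).mul t2
      simpa using this
    have hd : Tendsto (fun n => (layered (P n)).real (Cross (a n) (b n)) -
        Pool.Agent.H988R2.Perc.perc.real (Pool.Agent.H863R4.SCross (a n) (b n))) atTop (𝓝 0) := by
      have hr2 := hr.add hr
      rw [add_zero] at hr2
      refine squeeze_zero_norm' ?_ hr2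
      filter_upwards [(tendsto_atTop.mp ha') 1, (tendsto_atTop.mp hb') 1] with n h1 h2
      have h1' : 1 ≤ a n := by exact_mod_cast h1
      have h2' : 1 ≤ b n := by exact_mod_cast h2
      have e1 := hR (P n) (hP n) (a n) (b n) h1' h2'
      have e2 := Pool.Agent.H980R4.Rate.cross_rate Pool.Agent.H31C.exact_cardy h1' h2'
      have e3 : Pool.Agent.H863R4.cardyF ((a n:ℝ) / (a n + b n)) =
        cardy ((a n:ℝ) / (a n + b n)) := rfl
      rw [e3] at e2
      rw [Real.norm_eq_abs]
      rw [abs_le] at e1 e2 ⊢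
      constructor <;> linarith [e1.1, e1.2, e2.1, e2.2]
    have := hd.add hlim
    simp only [sub_add_cancel, zero_add] at this
    exact this

end Pool.Agent.Results.MP_35f495_pr.LayeredCardy
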