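import Pool.Agent.Run7.h729.Ld.Lde

/-!
# Large deviations of the winding of critical percolation in long cylinders

Critical bond percolation on `ℤ²` (`p = 1/2`), and more generally on layered isoradial lattices, on the
universal cover of a cylinder of odd circumference `N = 2n+1`, in rotated coordinates: the corners
`(x, y)` of the unit squares (tiles) with `x + y` even are the vertices of the lattice, the corners with
`x + y` odd those of the dual lattice (across a seam the two lattices are exchanged), and in every tile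
exactly one diagonal is open.  There are `M` rows of tiles.  At the bottom the arcs `[kN, kN + 2n]` are
wired.  The cluster of the arc `[0, 2n]` crosses the cylinder; at the top it occupies the corners from
`left` to `left + 2n`: these are the end points of the two exploration paths which follow the boundary
of the cluster.

The angles of the rows are chosen adaptively: given the rows below it, the tiles of the row `t` are
independent with the isoradial probability `isoP θ` of an angle `θ` in `[0, π]` which may depend on the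
percolation in the rows below.  In the isoradial embedding the row has the height `sin θ` and the
horizontal shift `-cos θ`.  In units in which the circumference is `2π` the cylinder has the height
`height = 2π/N ∑ sin θ_t`, and the crossing turns by the angle `wnd = 2π/N (left - ∑ cos θ_t)`.  For
`θ = π/2` all tiles are fair coins.

The theorem: the exponential moments and the large deviations of the winding.  For all small real `σ`
the exponential moments of `σ wnd - 3 σ² height` are bounded from above and from below, up to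
`exp (± C/N height)`, by constants which depend on `n` and `σ` only.  For all small `x ≥ 0` the probabilities of
`wnd ≥ x T` and of `wnd ≤ -x T` are `exp (-(x²/12 + O(N^(-1/2))) T)` as soon as the height is `T`, up to
a bounded amount, and `T` is large, for all adaptive environments.  So the rate function has the scaling
limit `x²/12 = x²/(2·6)`: that of `√6 B`, the driving function of radial `SLE_6`.
-/

set_option autoImplicit false

namespace Pool.Agent.Results.MP_6c8efb_pr.WindingDeviations

open Filter Topology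

/-- configurations of `M` rows of the cylinder of circumference `2n+1`: the state of the tile `(j,t)`
(the unit square with lower left corner `(j,t)`) is `c t (j mod 2n+1)` -/
abbrev Conf (n M : ℕ) : Type := Fin M → Fin (2 * n + 1) → Bool

/-- adjacency of the corners in the strip of `M` rows of the universal cover: the open diagonal of the
tile `(j,t)` is `(j,t) - (j+1,t+1)` in the state `false` and `(j+1,t) - (j,t+1)` in the state
`true`; and at the bottom, in every period, the corners `2i` and `2i+2`, `i < n`, are joined -/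
def Adj (n M : ℕ) (c : Conf n M) (x y : ℤ × ℤ) : Prop :=
  (∃ (j : ℤ) (t : Fin M),
    (c t (H906K.jx (2 * n) j) = false ∧ x = (j, (t : ℤ)) ∧ y = (j + 1, (t : ℤ) + 1)) ∨
    (c t (H906K.jx (2 * n) j) = true ∧ x = (j + 1, (t : ℤ)) ∧ y = (j, (t : ℤ) + 1))) ∨
  ∃ (k : ℤ) (i : ℕ), i < n ∧ x = (k * (2 * n + 1) + 2 * i, 0) ∧
    y = (k * (2 * n + 1) + 2 * i + 2, 0)

/-- the corners `x`, `y` are joined by an open path -/
def Conn (n M : ℕ) (c : Conf n M) (x y : ℤ × ℤ) : Prop := Relation.EqvGen (Adj n M c) x y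

/-- the leftmost corner at the top which is connected to the arc `[0, 2n]` of the bottom -/
noncomputable def left (n M : ℕ) (c : Conf n M) : ℤ :=
  sInf {p : ℤ | Conn n M c (0, 0) (p, (M : ℤ))}

/-- the first `m` rows -/
def rows {n M : ℕ} (c : Conf n M) (m : ℕ) : Conf n m :=
  fun t j => if h : (t : ℕ) < M then c ⟨t, h⟩ j else false

/-- an adaptive environment: the angle of the row `t` is a function of the configuration of the `t`
rows below it -/
abbrev Env (n : ℕ) : Type := (t : ℕ) → Conf n t → ℝ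

/-- the isoradial probability of the state `true` for the angle `θ`; it is `1/2` for `θ = π/2` -/
noncomputable def isoP (θ : ℝ) : ℝ :=
  Real.sin (θ / 3) / (Real.sin (θ / 3) + Real.sin ((Real.pi - θ) / 3))

/-- the mean value over the `M` lowest rows: given the rows below, the tiles of a row are independent
and in the state `true` with the probability `isoP` of the angle of the row -/
noncomputable def mean {n : ℕ} (θ : Env n) (M : ℕ) (F : Conf n M → ℝ) : ℝ :=
  ∑ c, (∏ t : Fin M, ∏ j, if c t j = true then isoP (θ t (rows c t))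
    else 1 - isoP (θ t (rows c t))) * F c

open Classical in
/-- the probability of the event `A` -/
noncomputable def prob {n : ℕ} (θ : Env n) (M : ℕ) (A : Conf n M → Prop) : ℝ :=
  mean θ M (fun c => if A c then 1 else 0)

/-- the winding: the horizontal displacement of the crossing in the isoradial embedding, in units in
which the circumference is `2π` -/
noncomputable def wnd {n M : ℕ} (θ : Env n) (c : Conf n M) : ℝ :=
  2 * Real.pi / (2 * n + 1) * (left n M c - ∑ t ∈ Finset.range M, Real.cos (θ t (rows c t)))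

/-- the height of the `M` rows, in units in which the circumference is `2π` -/
noncomputable def height {n M : ℕ} (θ : Env n) (c : Conf n M) : ℝ :=
  2 * Real.pi / (2 * n + 1) * ∑ t ∈ Finset.range M, Real.sin (θ t (rows c t))

/-- the proportion of the configurations in `A`: the probability for `p = 1/2` -/
noncomputable def freq {n M : ℕ} (A : Conf n M → Prop) : ℝ :=
  (Nat.card {c : Conf n M // A c} : ℝ) / 2 ^ ((2 * n + 1) * M)

theorem mean_eq {n : ℕ} (θ : Env n) (M : ℕ) (F : Conf n M → ℝ) :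
    mean θ M F = H729I.EE θ M F := rfl

theorem prob_eq {n : ℕ} (θ : Env n) (M : ℕ) (A : Conf n M → Prop) :
    prob θ M A = H729I.PrE θ M A := by
  rfl

theorem wnd_eq {n M : ℕ} (hn : 1 ≤ n) (θ : Env n) (c : Conf n M) : wnd θ c = H729I.wA θ c := by
  have h3 : H729I.dis c = (left n M c : ℝ) := H729I.dis_left hn c
  unfold H729I.wA
  rw [h3]
  rfl

theorem height_eq {n M : ℕ} (θ : Env n) (c : Conf n M) : height θ c = H729I.hA θ c := rfl

theorem isoP_half : isoP (Real.pi / 2) = 1 / 2 := by
  unfold isoP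
  rw [show (Real.pi - Real.pi / 2) / 3 = Real.pi / 2 / 3 by ring]
  have : Real.sin (Real.pi / 2 / 3) ≠ 0 := by
    rw [show Real.pi / 2 / 3 = Real.pi / 6 by ring, Real.sin_pi_div_six]
    norm_num
  field_simp
  norm_num

theorem prob_half {n : ℕ} (M : ℕ) (A : Conf n M → Prop) :
    prob (fun _ _ => Real.pi / 2) M A = freq A := by
  classical
  unfold prob mean freq
  have h1 : ∀ c : Conf n M, (∏ t : Fin M, ∏ j, (if c t j = true then isoP (Real.pi / 2)
      else 1 - isoP (Real.pi / 2))) = (1 / 2 : ℝ) ^ ((2 * n + 1) * M) := by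
    intro c
    rw [isoP_half]
    have h2 : ∀ (t : Fin M) (j : Fin (2 * n + 1)),
        (if c t j = true then (1 / 2 : ℝ) else 1 - 1 / 2) = 1 / 2 := by
      intro t j
      split_ifs <;> norm_num
    simp only [h2, Finset.prod_const, Finset.card_univ, Fintype.card_fin]
    rw [← pow_mul]
  simp only [h1, mul_ite, mul_one, mul_zero]
  rw [← Finset.sum_filter, Finset.sum_const, nsmul_eq_mul, Nat.card_eq_fintype_card,
    Fintype.card_subtype, one_div, inv_pow, div_eq_mul_inv]

theorem result :
    (∀ (n M : ℕ) (c : Conf n M), 1 ≤ n →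
      Conn n M c (0, 0) (left n M c, M) ∧ Conn n M c (0, 0) (left n M c + 2 * n, M) ∧
      ∀ p : ℤ, Conn n M c (0, 0) (p, M) → left n M c ≤ p ∧ p ≤ left n M c + 2 * n) ∧
    (∃ ρ C : ℝ, 0 < ρ ∧ ∀ n : ℕ, 1 ≤ n → ∀ σ : ℝ, |σ| ≤ ρ → ∃ a b : ℝ, 0 < a ∧
      ∀ θ : Env n, (∀ t c, θ t c ∈ Set.Icc 0 Real.pi) → ∀ M : ℕ,
        a ≤ mean θ M (fun c =>
          Real.exp (σ * wnd θ c - (3 * σ ^ 2 - C / (2 * n + 1)) * height θ c)) ∧
        mean θ M (fun c =>
          Real.exp (σ * wnd θ c - (3 * σ ^ 2 + C / (2 * n + 1)) * height θ c)) ≤ b) ∧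
    (∃ x₀ C : ℝ, 0 < x₀ ∧ ∃ n₀ : ℕ, ∀ n : ℕ, n₀ ≤ n → ∀ x : ℝ, 0 ≤ x → x ≤ x₀ → ∀ D : ℝ,
      ∃ T₀ : ℝ, ∀ T : ℝ, T₀ ≤ T → ∀ θ : Env n, (∀ t c, θ t c ∈ Set.Icc 0 Real.pi) → ∀ M : ℕ,
        (∀ c : Conf n M, T ≤ height θ c ∧ height θ c ≤ T + D) →
        (Real.exp (-(x ^ 2 / 12 + C / √(2 * n + 1)) * T) ≤ prob θ M (fun c => x * T ≤ wnd θ c) ∧
          prob θ M (fun c => x * T ≤ wnd θ c)
            ≤ Real.exp (-(x ^ 2 / 12 - C / √(2 * n + 1)) * T)) ∧
        (Real.exp (-(x ^ 2 / 12 + C / √(2 * n + 1)) * T)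
            ≤ prob θ M (fun c => wnd θ c ≤ -(x * T)) ∧
          prob θ M (fun c => wnd θ c ≤ -(x * T))
            ≤ Real.exp (-(x ^ 2 / 12 - C / √(2 * n + 1)) * T))) ∧
    ∃ x₀ C : ℝ, 0 < x₀ ∧ ∃ n₀ : ℕ, ∀ n : ℕ, n₀ ≤ n → ∀ x : ℝ, 0 ≤ x → x ≤ x₀ →
      ∃ M₀ : ℕ, ∀ M : ℕ, M₀ ≤ M → ∀ T : ℝ, T = 2 * Real.pi * M / (2 * n + 1) →
        (Real.exp (-(x ^ 2 / 12 + C / √(2 * n + 1)) * T)
            ≤ freq (fun c : Conf n M => x * T ≤ 2 * Real.pi * left n M c / (2 * n + 1)) ∧
          freq (fun c : Conf n M => x * T ≤ 2 * Real.pi * left n M c / (2 * n + 1))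
            ≤ Real.exp (-(x ^ 2 / 12 - C / √(2 * n + 1)) * T)) ∧
        (Real.exp (-(x ^ 2 / 12 + C / √(2 * n + 1)) * T)
            ≤ freq (fun c : Conf n M => 2 * Real.pi * left n M c / (2 * n + 1) ≤ -(x * T)) ∧
          freq (fun c : Conf n M => 2 * Real.pi * left n M c / (2 * n + 1) ≤ -(x * T))
            ≤ Real.exp (-(x ^ 2 / 12 - C / √(2 * n + 1)) * T)) := by
  have main : ∃ x₀ C : ℝ, 0 < x₀ ∧ ∃ n₀ : ℕ, ∀ n : ℕ, n₀ ≤ n → ∀ x : ℝ, 0 ≤ x → x ≤ x₀ → ∀ D : ℝ,
      ∃ T₀ : ℝ, ∀ T : ℝ, T₀ ≤ T → ∀ θ : Env n, (∀ t c, θ t c ∈ Set.Icc 0 Real.pi) → ∀ M : ℕ,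
        (∀ c : Conf n M, T ≤ height θ c ∧ height θ c ≤ T + D) →
        (Real.exp (-(x ^ 2 / 12 + C / √(2 * n + 1)) * T) ≤ prob θ M (fun c => x * T ≤ wnd θ c) ∧
          prob θ M (fun c => x * T ≤ wnd θ c)
            ≤ Real.exp (-(x ^ 2 / 12 - C / √(2 * n + 1)) * T)) ∧
        (Real.exp (-(x ^ 2 / 12 + C / √(2 * n + 1)) * T)
            ≤ prob θ M (fun c => wnd θ c ≤ -(x * T)) ∧
          prob θ M (fun c => wnd θ c ≤ -(x * T))
            ≤ Real.exp (-(x ^ 2 / 12 - C / √(2 * n + 1)) * T)) := by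
    obtain ⟨x₀, C, hx₀, n₀, hn₀, h⟩ := H729I.ldp_env
    refine ⟨x₀, C, hx₀, n₀, fun n hn x hx0 hx D => ?_⟩
    have hn1 : 1 ≤ n := hn₀.trans hn
    obtain ⟨T1, h1⟩ := h n hn 1 abs_one x hx0 hx D
    obtain ⟨T2, h2⟩ := h n hn (-1) (by rw [abs_neg, abs_one]) x hx0 hx D
    refine ⟨max T1 T2, fun T hT θ hθ M hh => ?_⟩
    have h3 := h1 T ((le_max_left _ _).trans hT) θ hθ M hh
    have h4 := h2 T ((le_max_right _ _).trans hT) θ hθ M hh
    have e1 : prob θ M (fun c => x * T ≤ wnd θ c)
        = H729I.PrE θ M (fun c => x * T ≤ 1 * H729I.wA θ c) := by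
      rw [prob_eq]
      congr 1
      funext c
      rw [wnd_eq hn1, one_mul]
    have e2 : prob θ M (fun c => wnd θ c ≤ -(x * T))
        = H729I.PrE θ M (fun c => x * T ≤ -1 * H729I.wA θ c) := by
      rw [prob_eq]
      congr 1
      funext c
      rw [wnd_eq hn1, neg_one_mul, le_neg]
    rw [e1, e2]
    exact ⟨h3, h4⟩
  refine ⟨?_, ?_, main, ?_⟩
  · intro n M c hn
    have hL : left n M c = Y994.KW.X n M c := Y994.KW.Lft_eq Y994.KW.All.CRS n M c hn
    obtain ⟨h1, h2, h3⟩ := Y994.KW.All.CRS n M c hn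
    rw [hL]
    exact ⟨h1, h2, h3⟩
  · obtain ⟨ρ, C, hρ, -, -, h⟩ := H729I.grow_env
    refine ⟨ρ, C, hρ, fun n hn σ hσ => ?_⟩
    rcases le_total 0 σ with h0 | h0
    · obtain ⟨a, b, ha, -, h1⟩ := h n hn 1 abs_one σ h0 (by rwa [abs_of_nonneg h0] at hσ)
      refine ⟨a, b, ha, fun θ hθ M => ?_⟩
      have h2 := h1 θ hθ M
      simp only [one_mul, ← wnd_eq hn, ← height_eq] at h2
      exact h2
    · obtain ⟨a, b, ha, -, h1⟩ := h n hn (-1) (by rw [abs_neg, abs_one]) (-σ) (by linarith)
        (by rwa [abs_of_nonpos h0] at hσ)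
      refine ⟨a, b, ha, fun θ hθ M => ?_⟩
      have h2 := h1 θ hθ M
      simp only [neg_one_mul, neg_mul_neg, neg_sq, ← wnd_eq hn, ← height_eq] at h2
      exact h2
  · obtain ⟨x₀, C, hx₀, n₀, h⟩ := main
    refine ⟨x₀, C, hx₀, n₀, fun n hn x hx0 hx => ?_⟩
    obtain ⟨T₀, h1⟩ := h n hn x hx0 hx 0
    have hpi := Real.pi_pos
    refine ⟨⌈T₀ * (2 * n + 1) / (2 * Real.pi)⌉₊, fun M hM T hT => ?_⟩
    have hTT : T₀ ≤ T := by
      have h2 := (Nat.le_ceil _).trans (Nat.cast_le.2 hM)
      rw [div_le_iff₀ (by positivity)] at h2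
      rw [hT, le_div_iff₀ (by positivity)]
      linarith
    have hw : ∀ c : Conf n M, wnd (fun _ _ => Real.pi / 2) c
        = 2 * Real.pi * left n M c / (2 * n + 1) := by
      intro c
      unfold wnd
      rw [Finset.sum_eq_zero fun _ _ => Real.cos_pi_div_two, sub_zero]
      ring
    have hh : ∀ c : Conf n M, height (fun _ _ => Real.pi / 2) c = T := by
      intro c
      unfold height
      simp only [Real.sin_pi_div_two, Finset.sum_const, Finset.card_range, nsmul_eq_mul, mul_one]
      rw [hT]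
      ring
    have h3 := h1 T hTT (fun _ _ => Real.pi / 2) (fun _ _ => ⟨by positivity, by linarith⟩) M
      (fun c => by rw [hh c, add_zero]; exact ⟨le_rfl, le_rfl⟩)
    rw [prob_half, prob_half] at h3
    simp only [hw] at h3
    exact h3

end Pool.Agent.Results.MP_6c8efb_pr.WindingDeviations
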